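import Mathlib
import Pool.Agent.R333.EKCore

/-!
# No uniform Erdős–Kac rate for irreducible quadratic floor polynomials

For every sequence `η N → 0` there is an admissible triple `(α, β, γ)` (so `α x² + β x + γ` is
irreducible over `ℝ` and positive, and `α`, `β` are not both rational) for which the Kolmogorov
distance between the normalised `ω(⌊α n² + β n + γ⌋)`, `n ≤ N`, and the standard normal distribution
is not `O(η N)`.

The polynomials are `α (x² - x) + 1 / 2`, `0 < α < 1`. If `α` is slightly larger than `a / q`, then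
for the multiples `n` of `q` (up to a large bound) the integer part is the product
`a (n / q) (n - 1)`, which has about `2 log log N` prime factors. This is a proportion `1 / q` of all
`n`, and the bound can be arbitrarily large in terms of `q`.
-/

set_option autoImplicit false

namespace Pool.Agent.Results.MP_02e1b1_nt.NoUniformRate

open Filter Topology Asymptotics Pool.Agent.R333.EKCore

/-- `(α, β, γ)` is admissible: `α > 0`, `β² < 4 α γ`, and `α`, `β` are not both rational. -/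
def Admissible (α β γ : ℝ) : Prop :=
  0 < α ∧ β ^ 2 < 4 * α * γ ∧ (Irrational α ∨ Irrational β)

/-- `(ω(⌊α n² + β n + γ⌋) - log log N) / √(log log N)`; here `m.primeFactors` is the set of the
primes dividing `m` and `⌊x⌋₊` is the integer part of `x ≥ 0`. -/
noncomputable def X (α β γ : ℝ) (N n : ℕ) : ℝ :=
  ((⌊α * (n : ℝ) ^ 2 + β * n + γ⌋₊.primeFactors.card : ℝ) - Real.log (Real.log N)) /
    √(Real.log (Real.log N))

/-- The distribution function `ℙ(X_N ≤ x)`, `n` uniformly distributed in `{1, …, N}`. -/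
noncomputable def cdfX (α β γ : ℝ) (N : ℕ) (x : ℝ) : ℝ :=
  (((Finset.Icc 1 N).filter (fun n => X α β γ N n ≤ x)).card : ℝ) / N

/-- The Kolmogorov distance `sup_x |ℙ(X_N ≤ x) - Φ(x)|` of `X_N` from the standard normal
distribution. -/
noncomputable def dK (α β γ : ℝ) (N : ℕ) : ℝ :=
  ⨆ x : ℝ, |cdfX α β γ N x - (ProbabilityTheory.gaussianReal 0 1).real (Set.Iic x)|

lemma le_dK (α β γ : ℝ) (N : ℕ) (hN : 0 < N) (x : ℝ) :
    (ProbabilityTheory.gaussianReal 0 1).real (Set.Iic x) - cdfX α β γ N x ≤ dK α β γ N := by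
  have hbdd : BddAbove (Set.range fun x : ℝ =>
      |cdfX α β γ N x - (ProbabilityTheory.gaussianReal 0 1).real (Set.Iic x)|) := by
    refine ⟨1, ?_⟩
    rintro _ ⟨y, rfl⟩
    have h1 : cdfX α β γ N y ≤ 1 := by
      unfold cdfX
      have hNR : (0 : ℝ) < N := by exact_mod_cast hN
      rw [div_le_one hNR]
      have := Finset.card_filter_le (Finset.Icc 1 N) (fun n => X α β γ N n ≤ y)
      rw [Nat.card_Icc, Nat.add_sub_cancel] at this
      exact_mod_cast this
    have h0 : 0 ≤ cdfX α β γ N y := by unfold cdfX; positivity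
    have h2 : (ProbabilityTheory.gaussianReal 0 1).real (Set.Iic y) ≤ 1 :=
      MeasureTheory.measureReal_le_one
    have h3 : 0 ≤ (ProbabilityTheory.gaussianReal 0 1).real (Set.Iic y) :=
      MeasureTheory.measureReal_nonneg
    show |cdfX α β γ N y - (ProbabilityTheory.gaussianReal 0 1).real (Set.Iic y)| ≤ 1
    rw [abs_le]
    constructor <;> linarith
  have h := le_ciSup hbdd x
  have h' : |cdfX α β γ N x - (ProbabilityTheory.gaussianReal 0 1).real (Set.Iic x)| ≤ dK α β γ N := h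
  have := neg_le_abs (cdfX α β γ N x - (ProbabilityTheory.gaussianReal 0 1).real (Set.Iic x))
  linarith

lemma gauss_tendsto : Tendsto (fun x : ℝ => (ProbabilityTheory.gaussianReal 0 1).real (Set.Iic x))
    atTop (𝓝 1) := by
  have h := MeasureTheory.tendsto_measure_Iic_atTop (ProbabilityTheory.gaussianReal 0 1)
  rw [MeasureTheory.measure_univ] at h
  have h2 := (ENNReal.tendsto_toReal (by norm_num : (1 : ENNReal) ≠ ⊤)).comp h
  rw [ENNReal.toReal_one] at h2
  exact h2

/-- the structured integers -/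
lemma floor_eq (a q M m : ℕ) (hq : 2 ≤ q) (hm : 0 < m) (hmM : m ≤ M) (α : ℝ)
    (h1 : (a : ℝ) / q ≤ α) (h2 : α < (a : ℝ) / q + 1 / (4 * ((q * M : ℕ) : ℝ) ^ 2)) :
    ⌊α * ((q * m : ℕ) : ℝ) ^ 2 + (-α) * ((q * m : ℕ) : ℝ) + 1 / 2⌋₊ = a * (m * (q * m - 1)) := by
  have hq0 : (0 : ℝ) < q := by
    have : 0 < q := by omega
    exact_mod_cast this
  have hqm : 1 ≤ q * m := Nat.mul_pos (by omega) hm
  have hcast : ((a * (m * (q * m - 1)) : ℕ) : ℝ) = a * (m * (q * m - 1)) := by
    rw [Nat.cast_mul, Nat.cast_mul, Nat.cast_sub hqm]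
    push_cast
    ring
  set n : ℝ := ((q * m : ℕ) : ℝ) with hn
  have hn' : n = q * m := by rw [hn]; push_cast; ring
  have hn1 : 1 ≤ n := by rw [hn]; exact_mod_cast hqm
  have hnN : n ≤ ((q * M : ℕ) : ℝ) := by
    rw [hn]
    exact_mod_cast Nat.mul_le_mul_left q hmM
  have hN0 : 0 < ((q * M : ℕ) : ℝ) := by linarith
  have e : α * n ^ 2 + (-α) * n + 1 / 2 = ((a * (m * (q * m - 1)) : ℕ) : ℝ) +
      (α - a / q) * (n ^ 2 - n) + 1 / 2 := by
    rw [hcast, hn']
    field_simp
    ring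
  have hnn : 0 ≤ n ^ 2 - n := by nlinarith
  have hp : 0 ≤ (α - a / q) * (n ^ 2 - n) := mul_nonneg (by linarith) hnn
  have hp2 : (α - a / q) * (n ^ 2 - n) ≤ 1 / 4 := by
    have h3 : α - a / q ≤ 1 / (4 * ((q * M : ℕ) : ℝ) ^ 2) := by linarith
    have h4 : n ^ 2 - n ≤ ((q * M : ℕ) : ℝ) ^ 2 := by
      have := pow_le_pow_left₀ (by linarith) hnN 2
      linarith
    calc (α - a / q) * (n ^ 2 - n) ≤ 1 / (4 * ((q * M : ℕ) : ℝ) ^ 2) * ((q * M : ℕ) : ℝ) ^ 2 :=
          mul_le_mul h3 h4 hnn (by positivity)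
      _ = 1 / 4 := by field_simp
  rw [e, Nat.floor_eq_iff (by positivity)]
  constructor <;> linarith

/-- The main step: a rational number `a / q`, and all slightly larger `α`. -/
lemma step (a q k : ℕ) (ha : 1 ≤ a) (hq : 2 ≤ q) (η : ℕ → ℝ) (hη : Tendsto η atTop (𝓝 0)) :
    ∃ N : ℕ, k ≤ N ∧ ∃ δ : ℝ, 0 < δ ∧ ∀ α : ℝ, (a : ℝ) / q ≤ α → α < (a : ℝ) / q + δ →
      k * η N < dK α (-α) (1 / 2) N := by
  have hq0 : (0 : ℝ) < q := by
    have : 0 < q := by omega
    exact_mod_cast this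
  have hqtop : Tendsto (fun M : ℕ => q * M) atTop atTop :=
    Filter.tendsto_id.const_mul_atTop' (by omega)
  have hL := tendsto_loglog q (by omega)
  have e1 := count_good a q ha hq
  have e2 : ∀ᶠ M : ℕ in atTop, 1 - 1 / (4 * (q : ℝ)) <
      (ProbabilityTheory.gaussianReal 0 1).real
        (Set.Iic (√(Real.log (Real.log ((q * M : ℕ) : ℝ))) / 4)) := by
    have h1 : Tendsto (fun M : ℕ => √(Real.log (Real.log ((q * M : ℕ) : ℝ))) / 4) atTop atTop :=
      (Real.tendsto_sqrt_atTop.comp hL).atTop_div_const (by norm_num)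
    have h2 := gauss_tendsto.comp h1
    exact h2.eventually_const_lt (by
      have : 0 < 1 / (4 * (q : ℝ)) := by positivity
      linarith)
  have e3 : ∀ᶠ M : ℕ in atTop, k * η (q * M) < 1 / (2 * (q : ℝ)) := by
    have h1 := (hη.comp hqtop).const_mul (k : ℝ)
    rw [mul_zero] at h1
    exact h1.eventually_lt_const (by positivity)
  have e4 : ∀ᶠ M : ℕ in atTop, 1 ≤ Real.log (Real.log ((q * M : ℕ) : ℝ)) :=
    hL.eventually_ge_atTop 1
  obtain ⟨M, h1, h2, h3, h4, h5⟩ :=
    (e1.and (e2.and (e3.and (e4.and (eventually_ge_atTop (k + 1)))))).exists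
  have hM0 : 0 < M := by omega
  have hMR : (0 : ℝ) < M := by exact_mod_cast hM0
  have hN0 : 0 < q * M := Nat.mul_pos (by omega) hM0
  refine ⟨q * M, by nlinarith, 1 / (4 * ((q * M : ℕ) : ℝ) ^ 2), by positivity, fun α hα1 hα2 => ?_⟩
  refine h3.trans_le ?_
  set L := Real.log (Real.log ((q * M : ℕ) : ℝ)) with hLdef
  have hs : 0 < √L := Real.sqrt_pos.2 (by linarith)
  have hss : √L * √L = L := Real.mul_self_sqrt (by linarith)
  refine le_trans ?_ (le_dK α (-α) (1 / 2) (q * M) hN0 (√L / 4))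
  -- the distribution function at `√L / 4`
  have hcdf : cdfX α (-α) (1 / 2) (q * M) (√L / 4) ≤ 1 - 3 / (4 * (q : ℝ)) := by
    unfold cdfX
    set G := (Finset.Ioc 0 M).filter (fun m =>
      3 / 2 * L ≤ ((a * (m * (q * m - 1))).primeFactors.card : ℝ)) with hG
    set B := (Finset.Icc 1 (q * M)).filter
      (fun n => X α (-α) (1 / 2) (q * M) n ≤ √L / 4) with hB
    have hinj : (G.image (fun m => q * m)).card = G.card :=
      Finset.card_image_of_injective _ (fun x y hxy => Nat.eq_of_mul_eq_mul_left (by omega) hxy)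
    have hdisj : Disjoint B (G.image (fun m => q * m)) := by
      rw [Finset.disjoint_left]
      intro n hn hn'
      rw [Finset.mem_image] at hn'
      obtain ⟨m, hm, rfl⟩ := hn'
      rw [hG, Finset.mem_filter, Finset.mem_Ioc] at hm
      obtain ⟨⟨hm1, hm2⟩, hm3⟩ := hm
      rw [hB, Finset.mem_filter] at hn
      have hX := hn.2
      unfold X at hX
      rw [floor_eq a q M m hq hm1 hm2 α hα1 hα2, ← hLdef, div_le_iff₀ hs] at hX
      nlinarith
    have hsub : B ∪ G.image (fun m => q * m) ⊆ Finset.Icc 1 (q * M) := by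
      intro n hn
      rw [Finset.mem_union] at hn
      rcases hn with hn | hn
      · exact (Finset.mem_filter.1 hn).1
      · rw [Finset.mem_image] at hn
        obtain ⟨m, hm, rfl⟩ := hn
        rw [hG, Finset.mem_filter, Finset.mem_Ioc] at hm
        rw [Finset.mem_Icc]
        exact ⟨Nat.mul_pos (by omega) hm.1.1, Nat.mul_le_mul_left q hm.1.2⟩
    have hcard := Finset.card_le_card hsub
    rw [Finset.card_union_of_disjoint hdisj, hinj, Nat.card_Icc, Nat.add_sub_cancel] at hcard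
    have hcard' : (B.card : ℝ) + G.card ≤ q * M := by exact_mod_cast hcard
    rw [div_le_iff₀ (by exact_mod_cast hN0)]
    push_cast
    have e : (1 - 3 / (4 * (q : ℝ))) * (q * M) = q * M - 3 / 4 * M := by
      field_simp
    rw [e]
    linarith
  have e : 1 / (2 * (q : ℝ)) = 3 / (4 * (q : ℝ)) - 1 / (4 * (q : ℝ)) := by
    field_simp
    norm_num
  rw [e]
  linarith

/-- **Main theorem.** There is no uniform rate: for every sequence `η N → 0` there is an admissible
triple `(α, β, γ)` for which `d_K(X_N, Z)` is not `O(η N)`. -/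
theorem result (η : ℕ → ℝ) (hη : Tendsto η atTop (𝓝 0)) :
    ∃ α β γ : ℝ, Admissible α β γ ∧ ¬ (fun N : ℕ => dK α β γ N) =O[atTop] η := by
  set η' : ℕ → ℝ := fun N => |η N| + 1 / ((N : ℝ) + 1) with hη'
  have hη'0 : Tendsto η' atTop (𝓝 0) := by
    have h1 : Tendsto (fun N => |η N|) atTop (𝓝 0) := by simpa using hη.abs
    have h2 := h1.add (tendsto_one_div_add_atTop_nhds_zero_nat (𝕜 := ℝ))
    rw [add_zero] at h2
    exact h2
  have hpos : ∀ N, 0 < η' N := fun N => by
    have h1 := abs_nonneg (η N)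
    have h2 : (0 : ℝ) < 1 / ((N : ℝ) + 1) := by positivity
    show 0 < |η N| + 1 / ((N : ℝ) + 1)
    linarith
  have hstep : ∀ (a q k : ℕ), ∃ N : ℕ, ∃ δ : ℝ, 0 < δ ∧ (1 ≤ a → 2 ≤ q → k ≤ N ∧
      ∀ α : ℝ, (a : ℝ) / q ≤ α → α < (a : ℝ) / q + δ → k * η' N < dK α (-α) (1 / 2) N) := by
    intro a q k
    by_cases h : 1 ≤ a ∧ 2 ≤ q
    · obtain ⟨N, h1, δ, h2, h3⟩ := step a q k h.1 h.2 η' hη'0
      exact ⟨N, δ, h2, fun _ _ => ⟨h1, h3⟩⟩
    · exact ⟨0, 1, one_pos, fun h1 h2 => absurd ⟨h1, h2⟩ h⟩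
  choose N δ hδ hN using hstep
  -- the open dense sets
  set V : ℕ → Set ℝ := fun k => Set.Iio 0 ∪ Set.Ioi 1 ∪
    ⋃ p : ℕ × ℕ, {α : ℝ | (1 ≤ p.1 ∧ 2 ≤ p.2) ∧
      α ∈ Set.Ioo ((p.1 : ℝ) / p.2) ((p.1 : ℝ) / p.2 + δ p.1 p.2 k)} with hV
  have hopen : ∀ k, IsOpen (V k) := by
    intro k
    refine (isOpen_Iio.union isOpen_Ioi).union (isOpen_iUnion fun p => ?_)
    by_cases h : 1 ≤ p.1 ∧ 2 ≤ p.2
    · simp only [h, and_self, true_and]
      exact isOpen_Ioo
    · have : {α : ℝ | (1 ≤ p.1 ∧ 2 ≤ p.2) ∧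
          α ∈ Set.Ioo ((p.1 : ℝ) / p.2) ((p.1 : ℝ) / p.2 + δ p.1 p.2 k)} = ∅ := by
        ext α
        simp only [Set.mem_ofPred_eq, Set.mem_empty_iff_false, iff_false, not_and]
        intro h'
        exact absurd h' h
      rw [this]
      exact isOpen_empty
  have hdense : ∀ k, Dense (V k) := by
    intro k
    rw [Metric.dense_iff]
    intro x r hr
    rcases le_or_gt (x + r) 0 with h | h
    · refine ⟨x + r / 2, ?_, Or.inl (Or.inl ?_)⟩
      · rw [Metric.mem_ball, Real.dist_eq]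
        rw [show x + r / 2 - x = r / 2 by ring, abs_of_pos (by linarith)]
        linarith
      · show x + r / 2 < 0
        linarith
    rcases le_or_gt 1 x with h' | h'
    · refine ⟨x + r / 2, ?_, Or.inl (Or.inr ?_)⟩
      · rw [Metric.mem_ball, Real.dist_eq]
        rw [show x + r / 2 - x = r / 2 by ring, abs_of_pos (by linarith)]
        linarith
      · show 1 < x + r / 2
        linarith
    obtain ⟨y, hy1, hy2⟩ := exists_rat_btwn (show max x 0 < min (x + r) 1 by
      rw [max_lt_iff, lt_min_iff, lt_min_iff]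
      exact ⟨⟨by linarith, h'⟩, ⟨h, by norm_num⟩⟩)
    rw [max_lt_iff] at hy1
    rw [lt_min_iff] at hy2
    have hy0 : 0 < y := by exact_mod_cast hy1.2
    have hyl : y < 1 := by exact_mod_cast hy2.2
    have hnum : 0 < y.num := Rat.num_pos.2 hy0
    have hden : 0 < y.den := y.den_pos
    obtain ⟨a, ha⟩ : ∃ a : ℕ, (a : ℤ) = y.num := ⟨y.num.toNat, Int.toNat_of_nonneg hnum.le⟩
    have ha1 : 1 ≤ a := by omega
    have hyeq : (y : ℝ) = (a : ℝ) / (y.den : ℝ) := by
      rw [Rat.cast_def, ← ha]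
      simp
    have hq2 : 2 ≤ y.den := by
      by_contra hcon
      have h1 : y.den = 1 := by omega
      rw [h1] at hyeq
      have h2 : (y : ℝ) < 1 := by exact_mod_cast hyl
      have h3 : (1 : ℝ) ≤ a := by exact_mod_cast ha1
      rw [hyeq] at h2
      simp at h2
      omega
    set ε := min (δ a y.den k) (x + r - y) with hε
    have hε0 : 0 < ε := lt_min (hδ a y.den k) (by linarith [hy2.1])
    have hε1 : ε ≤ δ a y.den k := min_le_left _ _
    have hε2 : ε ≤ x + r - y := min_le_right _ _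
    refine ⟨y + ε / 2, ?_, Or.inr ?_⟩
    · rw [Metric.mem_ball, Real.dist_eq, abs_lt]
      constructor <;> linarith [hy1.1]
    · rw [Set.mem_iUnion]
      refine ⟨(a, y.den), ⟨ha1, hq2⟩, ?_⟩
      rw [← hyeq]
      exact ⟨by linarith, by linarith⟩
  have hres : ∀ᶠ α in residual ℝ, ∀ k, α ∈ V k := by
    rw [eventually_countable_forall]
    exact fun k => residual_of_dense_open (hopen k) (hdense k)
  obtain ⟨α, hαI, hα, hαirr⟩ : ∃ α ∈ Set.Ioo (0 : ℝ) 1, (∀ k, α ∈ V k) ∧ Irrational α := by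
    have hd := dense_of_mem_residual (hres.and eventually_residual_irrational)
    obtain ⟨α, h1, h2⟩ := hd.inter_open_nonempty (Set.Ioo (0 : ℝ) 1) isOpen_Ioo ⟨1 / 2, by norm_num, by norm_num⟩
    exact ⟨α, h1, h2⟩
  refine ⟨α, -α, 1 / 2, ⟨hαI.1, ?_, Or.inl hαirr⟩, ?_⟩
  · nlinarith [hαI.1, hαI.2]
  · intro hO
    obtain ⟨C, hC⟩ := hO.bound
    rw [eventually_atTop] at hC
    obtain ⟨N₀, hC⟩ := hC
    obtain ⟨k, hk⟩ := exists_nat_ge (max C N₀)
    rcases hα k with (h | h) | h
    · exact absurd hαI.1 (not_lt.2 (le_of_lt h))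
    · exact absurd hαI.2 (not_lt.2 (le_of_lt h))
    · rw [Set.mem_iUnion] at h
      obtain ⟨⟨a, q⟩, ⟨h1, h2⟩, h3⟩ := h
      obtain ⟨h4, h5⟩ := hN a q k h1 h2
      have h6 := h5 α h3.1.le h3.2
      have hkN : (N₀ : ℝ) ≤ k := (le_max_right _ _).trans hk
      have h7 := hC (N a q k) (by
        have : N₀ ≤ k := by exact_mod_cast hkN
        omega)
      have h8 : dK α (-α) (1 / 2) (N a q k) ≤ C * |η (N a q k)| := (le_abs_self _).trans h7
      have h9 : C * |η (N a q k)| ≤ k * η' (N a q k) := by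
        have hCk : C ≤ k := (le_max_left _ _).trans hk
        have h10 : |η (N a q k)| ≤ η' (N a q k) := by
          show |η (N a q k)| ≤ |η (N a q k)| + 1 / (((N a q k : ℕ) : ℝ) + 1)
          have : (0 : ℝ) < 1 / (((N a q k : ℕ) : ℝ) + 1) := by positivity
          linarith
        calc C * |η (N a q k)| ≤ k * |η (N a q k)| :=
              mul_le_mul_of_nonneg_right hCk (abs_nonneg _)
          _ ≤ k * η' (N a q k) := mul_le_mul_of_nonneg_left h10 (Nat.cast_nonneg _)
      linarith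

end Pool.Agent.Results.MP_02e1b1_nt.NoUniformRate
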